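import Mathlib
import Pool.Agent.H10.CE.Targets

/-!
# The cell expander, row MAT: the sum over a window and its matrix
-/

set_option autoImplicit false

open Finset Matrix Pool.Agent.H10.CE

namespace Pool.Agent.H43.CE

theorem mat_sum (I J : ℕ) {ι : Type} [Fintype ι] (l r : ι → ℕ) (hl : ∀ e, l e < I)
    (hr : ∀ e, r e < J) (F G : ℕ → ℂ) (w : ι → ℂ) :
    ∑ i : Fin I, ∑ j : Fin J, F i * G j * (∑ e, if l e = i ∧ r e = j then w e else 0) =
      ∑ e, F (l e) * G (r e) * w e := by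
  classical
  have h1 : ∀ (i : Fin I) (j : Fin J),
      F i * G j * (∑ e, if l e = i ∧ r e = j then w e else 0) =
        ∑ e, if l e = i ∧ r e = j then F (l e) * G (r e) * w e else 0 := by
    intro i j
    rw [Finset.mul_sum]
    apply Finset.sum_congr rfl
    intro e _
    split_ifs with h
    · rw [h.1, h.2]
    · rw [mul_zero]
  simp only [h1]
  have h2 : ∀ i : Fin I, (∑ j : Fin J, ∑ e, if l e = i ∧ r e = j then F (l e) * G (r e) * w e
      else 0) = ∑ e, ∑ j : Fin J, if l e = i ∧ r e = j then F (l e) * G (r e) * w e else 0 :=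
    fun i => Finset.sum_comm
  simp only [h2]
  rw [Finset.sum_comm]
  apply Finset.sum_congr rfl
  intro e _
  rw [Finset.sum_eq_single (⟨l e, hl e⟩ : Fin I)]
  · rw [Finset.sum_eq_single (⟨r e, hr e⟩ : Fin J)]
    · simp
    · intro j _ hj
      rw [if_neg]
      rintro ⟨-, h⟩
      exact hj (Fin.ext h.symm)
    · intro h
      exact absurd (Finset.mem_univ _) h
  · intro i _ hi
    apply Finset.sum_eq_zero
    intro j _
    rw [if_neg]
    rintro ⟨h, -⟩
    exact hi (Fin.ext h.symm)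
  · intro h
    exact absurd (Finset.mem_univ _) h

open ComplexOrder in
theorem mat_trace_nonneg {I J : ℕ} (A : Matrix (Fin I) (Fin J) ℂ) (k : ℕ) :
    0 ≤ (((Aᴴ * A) ^ k).trace).re := by
  have h1 := ((Matrix.posSemidef_conjTranspose_mul_self A).pow k).trace_nonneg
  exact (Complex.nonneg_iff.1 h1).1

theorem pf_MAT (hOPN : T_OPN) : T_MAT := by
  classical
  intro c S M P a y r F G α β hS hSM haM hF hG
  set I : ℕ := M / S + 1 with hI
  set J : ℕ := (M + 2 * a * P) / S + 1 with hJ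
  set A := mA c S M P a y I J α β with hA
  have hSpos : (0 : ℝ) < S := by exact_mod_cast hS
  have hSM' : (1 : ℝ) ≤ (M : ℝ) / S := by
    rw [le_div_iff₀ hSpos, one_mul]
    exact_mod_cast hSM
  have hl : ∀ e : Ed M P, lc S e.1 < I := by
    rintro ⟨⟨n, p⟩, he⟩
    have h1 := (Finset.mem_product.1 he).1
    have h2 : n < M := Finset.mem_range.1 h1
    show n / S < M / S + 1
    exact Nat.lt_succ_of_le (Nat.div_le_div_right h2.le)
  have hr : ∀ e : Ed M P, rc S a e.1 < J := by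
    rintro ⟨⟨n, p⟩, he⟩
    have h1 := (Finset.mem_product.1 he).1
    have h2 : n < M := Finset.mem_range.1 h1
    have h3 := (Finset.mem_product.1 he).2
    have h4 : p ≤ 2 * P := (Finset.mem_Ioc.1 (Finset.mem_filter.1 h3).1).2
    show (n + a * p) / S < (M + 2 * a * P) / S + 1
    apply Nat.lt_succ_of_le
    apply Nat.div_le_div_right
    have h5 : a * p ≤ a * (2 * P) := Nat.mul_le_mul_left a h4
    have h6 : a * (2 * P) = 2 * a * P := by ring
    omega
  have hCS : CS c S M P a y F G α β = ∑ i : Fin I, ∑ j : Fin J, F i * G j * A i j := by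
    have h1 := mat_sum I J (fun e : Ed M P => lc S e.1) (fun e : Ed M P => rc S a e.1) hl hr F G
      (fun e => (wt S y e.1 : ℂ) * (c e.1.2 * ee (α * e.1.1 + β * e.1.2)))
    have h2 : ∑ i : Fin I, ∑ j : Fin J, F i * G j * A i j = ∑ i : Fin I, ∑ j : Fin J,
        F i * G j * (∑ e : Ed M P, if lc S e.1 = i ∧ rc S a e.1 = j then
          (wt S y e.1 : ℂ) * (c e.1.2 * ee (α * e.1.1 + β * e.1.2)) else 0) := rfl
    rw [h2, h1]
    have h3 := Finset.sum_coe_sort (Ed M P) (fun e : ℕ × ℕ => F (lc S e) * G (rc S a e) *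
      ((wt S y e : ℂ) * (c e.2 * ee (α * e.1 + β * e.2))))
    rw [h3]
    unfold CS Ed
    rw [Finset.sum_product]
    apply Finset.sum_congr rfl
    intro n _
    apply Finset.sum_congr rfl
    intro p _
    unfold lc rc
    ring
  have h1 := hOPN I J r A (fun i => F i) (fun j => G j)
  rw [← hCS] at h1
  refine h1.trans ?_
  apply mul_le_mul_of_nonneg_right _ (mat_trace_nonneg A _)
  rw [← mul_pow]
  have hFs : ∑ i : Fin I, ‖F i‖ ^ 2 ≤ 2 * ((M : ℝ) / S) := by
    calc ∑ i : Fin I, ‖F i‖ ^ 2 ≤ ∑ _i : Fin I, (1 : ℝ) :=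
          Finset.sum_le_sum fun i _ => pow_le_one₀ (norm_nonneg _) (hF i)
      _ = (I : ℝ) := by simp
      _ = ((M / S : ℕ) : ℝ) + 1 := by
          rw [hI]
          push_cast
          ring
      _ ≤ (M : ℝ) / S + (M : ℝ) / S := add_le_add Nat.cast_div_le hSM'
      _ = 2 * ((M : ℝ) / S) := by ring
  have hGs : ∑ j : Fin J, ‖G j‖ ^ 2 ≤ 3 * ((M : ℝ) / S) := by
    have h2 : (((M + 2 * a * P : ℕ)) : ℝ) / S ≤ 2 * ((M : ℝ) / S) := by
      have h3 : ((M + 2 * a * P : ℕ) : ℝ) ≤ 2 * M := by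
        have : M + 2 * a * P ≤ 2 * M := by omega
        exact_mod_cast this
      calc ((M + 2 * a * P : ℕ) : ℝ) / S ≤ (2 * M) / S := by gcongr
        _ = 2 * ((M : ℝ) / S) := by ring
    calc ∑ j : Fin J, ‖G j‖ ^ 2 ≤ ∑ _j : Fin J, (1 : ℝ) :=
          Finset.sum_le_sum fun j _ => pow_le_one₀ (norm_nonneg _) (hG j)
      _ = (J : ℝ) := by simp
      _ = (((M + 2 * a * P) / S : ℕ) : ℝ) + 1 := by
          rw [hJ]
          push_cast
          ring
      _ ≤ ((M + 2 * a * P : ℕ) : ℝ) / S + (M : ℝ) / S := add_le_add Nat.cast_div_le hSM'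
      _ ≤ 2 * ((M : ℝ) / S) + (M : ℝ) / S := by linarith
      _ = 3 * ((M : ℝ) / S) := by ring
  apply pow_le_pow_left₀ (by positivity)
  calc (∑ i : Fin I, ‖F i‖ ^ 2) * (∑ j : Fin J, ‖G j‖ ^ 2)
      ≤ (2 * ((M : ℝ) / S)) * (3 * ((M : ℝ) / S)) :=
        mul_le_mul hFs hGs (by positivity) (by positivity)
    _ ≤ 8 * ((M : ℝ) / S) ^ 2 := by nlinarith [sq_nonneg ((M : ℝ) / S)]

end Pool.Agent.H43.CE
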