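import Mathlib
import Pool.Agent.H10.CE.Targets
import Pool.Agent.H21.PI.Mean

/-!
# The cell expander, row NPR: the number of primes
-/

set_option autoImplicit false

open Finset Matrix Filter Topology Pool.Agent.H10.CE

namespace Pool.Agent.H43.CE

theorem pf_NPR : T_NPR := by
  have h0 := Pool.Agent.H21.PI.theta_tendsto
  rw [Metric.tendsto_atTop] at h0
  obtain ⟨x₀, hx₀⟩ := h0 (1 / 100) (by norm_num)
  have hθ : ∀ x : ℝ, x₀ ≤ x → 0 < x → 99 / 100 * x ≤ Chebyshev.theta x ∧
      Chebyshev.theta x ≤ 101 / 100 * x := by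
    intro x hx hpos
    have h1 := hx₀ x hx
    rw [Real.dist_eq, abs_lt] at h1
    obtain ⟨h2, h3⟩ := h1
    constructor
    · have : 99 / 100 ≤ Chebyshev.theta x / x := by linarith
      rwa [le_div_iff₀ hpos] at this
    · have : Chebyshev.theta x / x ≤ 101 / 100 := by linarith
      rwa [div_le_iff₀ hpos] at this
  refine ⟨max 3 ⌈x₀⌉₊, fun P hP => ?_⟩
  have hP3 : 3 ≤ P := (le_max_left _ _).trans hP
  have hPx : x₀ ≤ (P : ℝ) := (Nat.le_ceil x₀).trans (by exact_mod_cast (le_max_right _ _).trans hP)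
  have hPpos : (0 : ℝ) < P := by
    have : 0 < P := by omega
    exact_mod_cast this
  have hupper : ((Pr P).card : ℝ) ≤ P := by
    have h1 : (Pr P).card ≤ (Finset.Ioc P (2 * P)).card := Finset.card_filter_le _ _
    rw [Nat.card_Ioc] at h1
    have h2 : 2 * P - P = P := by omega
    rw [h2] at h1
    exact_mod_cast h1
  refine ⟨?_, hupper⟩
  have hdiff : Chebyshev.theta ((2 * P : ℕ) : ℝ) - Chebyshev.theta (P : ℝ) =
      ∑ p ∈ Pr P, Real.log p := by
    unfold Chebyshev.theta Pr
    rw [Nat.floor_natCast, Nat.floor_natCast, sub_eq_iff_eq_add, ← Finset.sum_union]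
    · congr 1
      rw [← Finset.filter_union, Finset.union_comm, Finset.Ioc_union_Ioc_eq_Ioc (Nat.zero_le _)
        (by omega)]
    · rw [Finset.disjoint_left]
      intro x hx hx'
      have h1 := (Finset.mem_Ioc.1 (Finset.mem_filter.1 hx).1).1
      have h2 := (Finset.mem_Ioc.1 (Finset.mem_filter.1 hx').1).2
      omega
  have hsum : ∑ p ∈ Pr P, Real.log p ≤ (Pr P).card * Real.log ((2 * P : ℕ) : ℝ) := by
    rw [← nsmul_eq_mul]
    apply Finset.sum_le_card_nsmul
    intro p hp
    have h1 := Finset.mem_Ioc.1 (Finset.mem_filter.1 hp).1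
    apply Real.log_le_log
    · have : 0 < p := by omega
      exact_mod_cast this
    · exact_mod_cast h1.2
  have h1 := (hθ ((2 * P : ℕ) : ℝ) (by push_cast; linarith) (by push_cast; linarith)).1
  have h2 := (hθ (P : ℝ) hPx hPpos).2
  have hlogP : 1 ≤ Real.log P := by
    rw [Real.le_log_iff_exp_le hPpos]
    have h3 : Real.exp 1 < 2.7182818286 := Real.exp_one_lt_d9
    have h4 : (3 : ℝ) ≤ P := by exact_mod_cast hP3
    linarith
  have hlog2P : Real.log ((2 * P : ℕ) : ℝ) ≤ 19 / 10 * Real.log P := by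
    push_cast
    rw [Real.log_mul two_ne_zero hPpos.ne']
    have h3 := Real.log_two_lt_d9
    linarith
  have hc : (0 : ℝ) ≤ (Pr P).card := Nat.cast_nonneg _
  rw [div_le_iff₀ (by linarith)]
  have h5 : 97 / 100 * (P : ℝ) ≤ (Pr P).card * (19 / 10 * Real.log P) := by
    have h6 := mul_le_mul_of_nonneg_left hlog2P hc
    push_cast at h1 hdiff h6 hsum
    linarith
  have h7 : (0 : ℝ) ≤ (Pr P).card * Real.log P := mul_nonneg hc (by linarith)
  nlinarith

end Pool.Agent.H43.CE
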